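import Mathlib

/-!
# Speedup of `k` random walks from the best starting vertices

For a finite connected graph `G` let `h_max` be the largest expected hitting time, `C` the largest
expected cover time of a single random walk and `H(G) = C / h_max`. We show that there are NO
absolute constants `α, c > 0` such that `C ≤ c k C_{u_1,…,u_k}` whenever `k ≤ e^{α H(G)}`: for all
`α, c > 0` there are a finite connected simple graph, an integer `k ≤ e^{α H(G)}` and starting
vertices with `C > c k C_{u_1,…,u_k}`.

The graph consists of two cliques with `m + 1` and `m² + 1` vertices which share exactly one vertex.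
A walk which leaves the small clique needs about `m³` steps to come back, and each visit to the small
clique lasts about `m` steps and covers a given vertex of it with probability about `1/2`. So a
single walk needs about `log m` visits, that is, about `m³ log m` steps, to cover the small clique,
and `h_max` is of order `m³`, `H(G)` of order `log m`. On the other hand `k` of order `log m` walks
started in the small clique cover the whole graph within `O(m²)` steps with high probability.
-/

open scoped ENNReal
open Finset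

namespace Pool.Agent.Results.MP_a2c283_pr.SpeedupCounterexample

open Classical in
/-- One step of the simple random walk on `G`: the probability of moving from `x` to `y`, a
uniformly random neighbour of `x`. -/
noncomputable def stepProb {V : Type*} [Fintype V] (G : SimpleGraph V) (x y : V) : ℝ :=
  if G.Adj x y then 1 / (G.degree x : ℝ) else 0

/-- The probability that the simple random walk started at `w 0` follows the trajectory
`w 0, w 1, …, w t`. -/
noncomputable def pathProb {V : Type*} [Fintype V] (G : SimpleGraph V) {t : ℕ}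
    (w : Fin (t + 1) → V) : ℝ :=
  ∏ s : Fin t, stepProb G (w s.castSucc) (w s.succ)

open Classical in
/-- The probability `P_x(T_v > t)` that the walk started at `x` does not visit `v` up to time `t`:
the sum of the probabilities of the trajectories of length `t` from `x` which avoid `v`. -/
noncomputable def hitTail {V : Type*} [Fintype V] (G : SimpleGraph V) (x v : V) (t : ℕ) : ℝ :=
  ∑ w : Fin (t + 1) → V with w 0 = x ∧ ∀ s, w s ≠ v, pathProb G w

/-- The expected hitting time `h(x, v) = E_x T_v = ∑_{t ≥ 0} P_x(T_v > t)`. -/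
noncomputable def hit {V : Type*} [Fintype V] (G : SimpleGraph V) (x v : V) : ℝ≥0∞ :=
  ∑' t : ℕ, ENNReal.ofReal (hitTail G x v t)

open Classical in
/-- The probability `P(τ > t)` that `k` independent walks, walk `i` started at `u i`, have not
visited all vertices up to time `t`: the sum over all `k`-tuples of trajectories of length `t`, with
the right starting vertices and missing some common vertex `v`, of the products of the
probabilities of the `k` trajectories. -/
noncomputable def coverTail {V : Type*} [Fintype V] (G : SimpleGraph V) {k : ℕ} (u : Fin k → V)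
    (t : ℕ) : ℝ :=
  ∑ w : Fin k → (Fin (t + 1) → V) with (∀ i, w i 0 = u i) ∧ ∃ v, ∀ i s, w i s ≠ v,
    ∏ i, pathProb G (w i)

/-- The expected cover time `C_{u_1,…,u_k} = E τ = ∑_{t ≥ 0} P(τ > t)` of `k` independent walks,
walk `i` started at `u i`. -/
noncomputable def coverTime {V : Type*} [Fintype V] (G : SimpleGraph V) {k : ℕ} (u : Fin k → V) :
    ℝ≥0∞ :=
  ∑' t : ℕ, ENNReal.ofReal (coverTail G u t)

/-- `h_max`, the largest expected hitting time. -/
noncomputable def hMax {V : Type*} [Fintype V] (G : SimpleGraph V) : ℝ≥0∞ := ⨆ x, ⨆ v, hit G x v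

/-- `C`, the largest expected cover time of a single walk over the starting vertices. -/
noncomputable def cMax {V : Type*} [Fintype V] (G : SimpleGraph V) : ℝ≥0∞ :=
  ⨆ x, coverTime G (fun _ : Fin 1 => x)

/-- `H(G) = C / h_max`. -/
noncomputable def hRatio {V : Type*} [Fintype V] (G : SimpleGraph V) : ℝ≥0∞ := cMax G / hMax G

variable {V : Type*} [Fintype V] (G : SimpleGraph V)

lemma stepProb_nonneg (x y : V) : 0 ≤ stepProb G x y := by
  unfold stepProb
  split_ifs <;> positivity

lemma sum_stepProb_mul (x : V) (f : V → ℝ) :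
    ∑ y, stepProb G x y * f y = (1 / (Nat.card (G.neighborSet x) : ℝ)) *
      ∑ y, (open Classical in if G.Adj x y then f y else 0) := by
  classical
  rw [Finset.mul_sum]
  apply Finset.sum_congr rfl
  intro y _
  unfold stepProb
  have : G.degree x = Nat.card (G.neighborSet x) := by
    rw [Nat.card_eq_fintype_card, SimpleGraph.card_neighborSet_eq_degree]
  rw [← this]
  by_cases h : G.Adj x y
  · simp only [h, if_true]
  · simp only [h, if_false]; ring

lemma sum_stepProb_le_one (x : V) : ∑ y, stepProb G x y ≤ 1 := by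
  classical
  have h := sum_stepProb_mul G x (fun _ => 1)
  simp only [mul_one] at h
  rw [h]
  have h2 : ∑ y, (if G.Adj x y then (1 : ℝ) else 0) = Nat.card (G.neighborSet x) := by
    rw [Finset.sum_boole, Nat.card_eq_fintype_card, SimpleGraph.card_neighborSet_eq_degree,
      ← SimpleGraph.card_neighborFinset_eq_degree, SimpleGraph.neighborFinset_eq_filter]
  rw [h2]
  by_cases h3 : (Nat.card (G.neighborSet x) : ℝ) = 0
  · rw [h3]; norm_num
  · rw [one_div, inv_mul_cancel₀ h3]

lemma pathProb_nonneg {t : ℕ} (w : Fin (t + 1) → V) : 0 ≤ pathProb G w :=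
  Finset.prod_nonneg fun _ _ => stepProb_nonneg G _ _

lemma pathProb_cons {t : ℕ} (x : V) (w : Fin (t + 1) → V) :
    pathProb G (Fin.cons x w : Fin (t + 2) → V) = stepProb G x (w 0) * pathProb G w := by
  unfold pathProb
  rw [Fin.prod_univ_succ]
  congr 1

lemma sum_cons {t : ℕ} (f : (Fin (t + 2) → V) → ℝ) :
    ∑ w, f w = ∑ x, ∑ w : Fin (t + 1) → V, f (Fin.cons x w) := by
  rw [← Fintype.sum_prod_type']
  exact (Fintype.sum_equiv (Fin.consEquiv (fun _ : Fin (t + 2) => V)) _ _ (fun p => rfl)).symm

/-- A general sum over trajectories from `x`, weighted by a `0`-`1` function of the path. -/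
noncomputable def pathSum (x : V) (t : ℕ) (A : (Fin (t + 1) → V) → Prop) : ℝ :=
  open Classical in ∑ w : Fin (t + 1) → V with w 0 = x ∧ A w, pathProb G w

lemma pathSum_nonneg (x : V) (t : ℕ) (A : (Fin (t + 1) → V) → Prop) : 0 ≤ pathSum G x t A :=
  Finset.sum_nonneg fun _ _ => pathProb_nonneg G _

lemma pathSum_mono (x : V) (t : ℕ) (A B : (Fin (t + 1) → V) → Prop)
    (h : ∀ w, w 0 = x → A w → B w) : pathSum G x t A ≤ pathSum G x t B := by
  classical
  unfold pathSum
  apply Finset.sum_le_sum_of_subset_of_nonneg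
  · intro w hw
    simp only [Finset.mem_filter, Finset.mem_univ, true_and] at hw ⊢
    exact ⟨hw.1, h w hw.1 hw.2⟩
  · intro w _ _
    exact pathProb_nonneg G w

lemma pathSum_zero (x : V) (A : (Fin 1 → V) → Prop) :
    pathSum G x 0 A = open Classical in if A (fun _ => x) then 1 else 0 := by
  classical
  unfold pathSum
  have h : ∀ w : Fin 1 → V, w 0 = x ↔ w = fun _ => x := by
    intro w
    constructor
    · intro h
      funext i
      rw [Subsingleton.elim i 0, h]
    · intro h
      rw [h]
  have h2 : (Finset.univ.filter fun w : Fin 1 → V => w 0 = x ∧ A w)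
      = if A (fun _ => x) then {fun _ => x} else ∅ := by
    ext w
    simp only [Finset.mem_filter, Finset.mem_univ, true_and]
    rw [h w]
    split_ifs with hA
    · simp only [Finset.mem_singleton]
      constructor
      · exact fun h => h.1
      · rintro rfl; exact ⟨rfl, hA⟩
    · simp only [Finset.notMem_empty, iff_false]
      rintro ⟨rfl, h⟩
      exact hA h
  rw [h2]
  split_ifs
  · simp [pathProb]
  · simp

lemma pathSum_succ (x : V) (t : ℕ) (A : (Fin (t + 2) → V) → Prop) :
    pathSum G x (t + 1) A
      = ∑ y, stepProb G x y * pathSum G y t (fun w => A (Fin.cons x w)) := by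
  classical
  unfold pathSum
  simp only [Finset.sum_filter]
  rw [sum_cons]
  have h1 : ∀ z : V, ∑ w : Fin (t + 1) → V,
      (if (Fin.cons z w : Fin (t + 2) → V) 0 = x ∧ A (Fin.cons z w)
        then pathProb G (Fin.cons z w : Fin (t + 2) → V) else 0)
      = if z = x then ∑ w : Fin (t + 1) → V, (if A (Fin.cons x w)
          then stepProb G x (w 0) * pathProb G w else 0) else 0 := by
    intro z
    by_cases hz : z = x
    · subst hz
      simp only [Fin.cons_zero, true_and, if_true, pathProb_cons]
    · simp [hz]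
  simp_rw [h1]
  rw [Finset.sum_ite_eq' Finset.univ x]
  simp only [Finset.mem_univ, if_true]
  simp_rw [Finset.mul_sum]
  rw [Finset.sum_comm]
  apply Finset.sum_congr rfl
  intro w _
  have h2 : ∀ y : V, stepProb G x y * (if w 0 = y ∧ A (Fin.cons x w) then pathProb G w else 0)
      = if y = w 0 then (if A (Fin.cons x w) then stepProb G x (w 0) * pathProb G w else 0)
        else 0 := by
    intro y
    by_cases hy : y = w 0
    · subst hy
      by_cases hA : A (Fin.cons x w) <;> simp [hA]
    · have : ¬ (w 0 = y) := fun h => hy h.symm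
      simp [hy, this]
  simp_rw [h2]
  rw [Finset.sum_ite_eq' Finset.univ (w 0)]
  simp

lemma pathSum_le_one (x : V) (t : ℕ) (A : (Fin (t + 1) → V) → Prop) : pathSum G x t A ≤ 1 := by
  induction t generalizing x with
  | zero =>
    rw [pathSum_zero]
    split_ifs <;> norm_num
  | succ t ih =>
    rw [pathSum_succ]
    calc _ ≤ ∑ y, stepProb G x y * 1 :=
          Finset.sum_le_sum fun y _ => mul_le_mul_of_nonneg_left (ih y _) (stepProb_nonneg G x y)
      _ ≤ 1 := by simpa using sum_stepProb_le_one G x

lemma hitTail_eq (x v : V) (t : ℕ) :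
    hitTail G x v t = pathSum G x t (fun w => ∀ s, w s ≠ v) := by
  unfold hitTail pathSum
  apply Finset.sum_congr _ (fun _ _ => rfl)
  ext w
  simp only [Finset.mem_filter]

lemma hitTail_nonneg (x v : V) (t : ℕ) : 0 ≤ hitTail G x v t := by
  rw [hitTail_eq]; exact pathSum_nonneg _ _ _ _

lemma hitTail_le_one (x v : V) (t : ℕ) : hitTail G x v t ≤ 1 := by
  rw [hitTail_eq]; exact pathSum_le_one _ _ _ _

lemma hitTail_self (v : V) (t : ℕ) : hitTail G v v t = 0 := by
  unfold hitTail
  apply Finset.sum_eq_zero
  intro w hw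
  simp only [Finset.mem_filter, Finset.mem_univ, true_and] at hw
  exact absurd hw.1 (hw.2 0)

lemma hitTail_zero (x v : V) (h : x ≠ v) : hitTail G x v 0 = 1 := by
  rw [hitTail_eq, pathSum_zero, if_pos]
  intro _
  exact h

lemma hitTail_succ (x v : V) (h : x ≠ v) (t : ℕ) :
    hitTail G x v (t + 1) = ∑ y, stepProb G x y * hitTail G y v t := by
  rw [hitTail_eq, pathSum_succ]
  apply Finset.sum_congr rfl
  intro y _
  rw [hitTail_eq]
  congr 2
  funext w
  apply propext
  constructor
  · intro h1 s
    exact h1 s.succ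
  · intro h1 s
    refine Fin.cases ?_ (fun s => ?_) s
    · simpa using h
    · simpa using h1 s

lemma hitTail_antitone (x v : V) : Antitone (hitTail G x v) := by
  apply antitone_nat_of_succ_le
  intro t
  by_cases h : x = v
  · subst h
    rw [hitTail_self, hitTail_self]
  · induction t generalizing x with
    | zero =>
      rw [hitTail_zero G x v h]
      exact hitTail_le_one G x v 1
    | succ t ih =>
      rw [hitTail_succ G x v h, hitTail_succ G x v h]
      apply Finset.sum_le_sum
      intro y _
      apply mul_le_mul_of_nonneg_left _ (stepProb_nonneg G x y)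
      by_cases hy : y = v
      · subst hy
        rw [hitTail_self, hitTail_self]
      · exact ih y hy

/-- Upper bound for hitting times by a potential. -/
lemma sum_hitTail_le (v : V) (f : V → ℝ) (hf : ∀ x, 0 ≤ f x)
    (hstep : ∀ x, x ≠ v → 1 + ∑ y, stepProb G x y * f y ≤ f x) (n : ℕ) :
    ∀ x, ∑ t ∈ Finset.range n, hitTail G x v t ≤ f x := by
  induction n with
  | zero => intro x; simpa using hf x
  | succ n ih =>
    intro x
    by_cases h : x = v
    · subst h
      simp only [hitTail_self, Finset.sum_const_zero]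
      exact hf x
    · rw [Finset.sum_range_succ', hitTail_zero G x v h]
      simp_rw [hitTail_succ G x v h]
      rw [Finset.sum_comm]
      simp_rw [← Finset.mul_sum]
      calc _ ≤ ∑ y, stepProb G x y * f y + 1 := by
            gcongr with y _
            · exact stepProb_nonneg G x y
            · exact ih y
        _ ≤ f x := by linarith [hstep x h]

lemma hit_le (v : V) (f : V → ℝ) (hf : ∀ x, 0 ≤ f x)
    (hstep : ∀ x, x ≠ v → 1 + ∑ y, stepProb G x y * f y ≤ f x) (x : V) :
    hit G x v ≤ ENNReal.ofReal (f x) := by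
  unfold hit
  apply ENNReal.tsum_le_of_sum_range_le
  intro n
  rw [← ENNReal.ofReal_sum_of_nonneg (fun t _ => hitTail_nonneg G x v t)]
  exact ENNReal.ofReal_le_ofReal (sum_hitTail_le G v f hf hstep n x)

/-- Markov's inequality for the hitting time. -/
lemma hitTail_le_div (v : V) (f : V → ℝ) (hf : ∀ x, 0 ≤ f x)
    (hstep : ∀ x, x ≠ v → 1 + ∑ y, stepProb G x y * f y ≤ f x) (x : V) (T : ℕ) (hT : 0 < T)
    (t : ℕ) (ht : T ≤ t) : hitTail G x v t ≤ f x / T := by
  have h1 : (T : ℝ) * hitTail G x v t ≤ ∑ s ∈ Finset.range T, hitTail G x v s := by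
    calc (T : ℝ) * hitTail G x v t = ∑ _s ∈ Finset.range T, hitTail G x v t := by simp
      _ ≤ _ := by
        apply Finset.sum_le_sum
        intro s hs
        apply hitTail_antitone
        have := Finset.mem_range.mp hs
        omega
  have h2 := sum_hitTail_le G v f hf hstep T x
  rw [le_div_iff₀ (by exact_mod_cast hT)]
  linarith

/-! ### Several walks -/

lemma coverTail_nonneg {k : ℕ} (u : Fin k → V) (t : ℕ) : 0 ≤ coverTail G u t :=
  Finset.sum_nonneg fun _ _ => Finset.prod_nonneg fun _ _ => pathProb_nonneg G _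

lemma sum_prod_pathProb {k : ℕ} (u : Fin k → V) (t : ℕ)
    (A : (Fin (t + 1) → V) → Prop) (W : Finset (Fin k → (Fin (t + 1) → V)))
    (hW : ∀ w, w ∈ W ↔ ∀ i, w i 0 = u i ∧ A (w i)) :
    ∑ w ∈ W, ∏ i, pathProb G (w i) = ∏ i, pathSum G (u i) t A := by
  classical
  unfold pathSum
  rw [Finset.prod_univ_sum]
  apply Finset.sum_congr _ (fun _ _ => rfl)
  ext w
  rw [hW]
  simp [Fintype.mem_piFinset]

/-- Union bound over the missed vertex. -/
lemma coverTail_le_sum {k : ℕ} (u : Fin k → V) (t : ℕ) :
    coverTail G u t ≤ ∑ v, ∏ i, hitTail G (u i) v t := by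
  classical
  unfold coverTail
  calc _ ≤ ∑ v, ∑ w : Fin k → (Fin (t + 1) → V) with ∀ i, w i 0 = u i ∧ ∀ s, w i s ≠ v,
        ∏ i, pathProb G (w i) := by
        simp only [Finset.sum_filter]
        rw [Finset.sum_comm]
        apply Finset.sum_le_sum
        intro w _
        have hn : 0 ≤ ∏ i, pathProb G (w i) := Finset.prod_nonneg fun _ _ => pathProb_nonneg G _
        split_ifs with h
        · obtain ⟨h1, v, hv⟩ := h
          have h3 : (if (∀ i, w i 0 = u i ∧ ∀ s, w i s ≠ v) then ∏ i, pathProb G (w i) else 0)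
              = ∏ i, pathProb G (w i) := if_pos (fun i => ⟨h1 i, hv i⟩)
          refine h3.symm.le.trans ?_
          refine Finset.single_le_sum (f := fun v => if (∀ i, w i 0 = u i ∧ ∀ s, w i s ≠ v) then
            ∏ i, pathProb G (w i) else 0) ?_ (Finset.mem_univ v)
          intro v _
          show 0 ≤ (if (∀ i, w i 0 = u i ∧ ∀ s, w i s ≠ v) then ∏ i, pathProb G (w i) else 0)
          split_ifs
          · exact hn
          · exact le_rfl
        · apply Finset.sum_nonneg
          intro v _
          split_ifs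
          · exact hn
          · exact le_rfl
    _ = _ := by
        apply Finset.sum_congr rfl
        intro v _
        rw [sum_prod_pathProb G u t (fun w => ∀ s, w s ≠ v) _ (by intro w; simp)]
        apply Finset.prod_congr rfl
        intro i _
        rw [hitTail_eq]

lemma coverTail_le_one {k : ℕ} (u : Fin k → V) (t : ℕ) : coverTail G u t ≤ 1 := by
  classical
  calc coverTail G u t
      ≤ ∑ w : Fin k → (Fin (t + 1) → V) with ∀ i, w i 0 = u i ∧ True,
        ∏ i, pathProb G (w i) := by
        unfold coverTail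
        apply Finset.sum_le_sum_of_subset_of_nonneg
        · intro w hw
          simp only [Finset.mem_filter, Finset.mem_univ, true_and, and_true] at hw ⊢
          exact hw.1
        · intro w _ _
          exact Finset.prod_nonneg fun _ _ => pathProb_nonneg G _
    _ = ∏ i, pathSum G (u i) t (fun _ => True) :=
        sum_prod_pathProb G u t (fun _ => True) _ (by intro w; simp)
    _ ≤ 1 := Finset.prod_le_one (fun i _ => pathSum_nonneg _ _ _ _)
        (fun i _ => pathSum_le_one _ _ _ _)

/-- Upper bound for the cover time of `k + 1` walks from the same vertex. -/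
lemma coverTime_le (k : ℕ) (r : V) (T : ℕ) (q : ℝ) (hq : 0 ≤ q)
    (h : ∀ v t, T ≤ t → hitTail G r v t ≤ q) (hbar : ℝ≥0∞) (hh : ∀ v, hit G r v ≤ hbar) :
    coverTime G (fun _ : Fin (k + 1) => r)
      ≤ T + ENNReal.ofReal (q ^ k) * (Fintype.card V * hbar) := by
  unfold coverTime
  have h1 : ∀ t, ENNReal.ofReal (coverTail G (fun _ : Fin (k + 1) => r) t)
      ≤ (if t < T then 1 else 0)
        + ENNReal.ofReal (q ^ k) * ∑ v, ENNReal.ofReal (hitTail G r v t) := by
    intro t
    by_cases ht : t < T
    · rw [if_pos ht]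
      calc ENNReal.ofReal (coverTail G (fun _ : Fin (k + 1) => r) t) ≤ ENNReal.ofReal 1 :=
            ENNReal.ofReal_le_ofReal (coverTail_le_one G _ t)
        _ = 1 := ENNReal.ofReal_one
        _ ≤ _ := le_self_add
    · rw [if_neg ht, zero_add]
      have ht' : T ≤ t := not_lt.mp ht
      rw [← ENNReal.ofReal_sum_of_nonneg (fun v _ => hitTail_nonneg G r v t),
        ← ENNReal.ofReal_mul (by positivity)]
      apply ENNReal.ofReal_le_ofReal
      refine (coverTail_le_sum G _ t).trans ?_
      rw [Finset.mul_sum]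
      apply Finset.sum_le_sum
      intro v _
      rw [Finset.prod_const, Finset.card_univ, Fintype.card_fin, pow_succ]
      apply mul_le_mul_of_nonneg_right _ (hitTail_nonneg G r v t)
      exact pow_le_pow_left₀ (hitTail_nonneg G r v t) (h v t ht') k
  calc ∑' t, ENNReal.ofReal (coverTail G (fun _ : Fin (k + 1) => r) t)
      ≤ ∑' t, ((if t < T then 1 else 0)
        + ENNReal.ofReal (q ^ k) * ∑ v, ENNReal.ofReal (hitTail G r v t)) :=
        ENNReal.tsum_le_tsum h1
    _ = (∑' t : ℕ, (if t < T then (1 : ℝ≥0∞) else 0))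
        + ENNReal.ofReal (q ^ k) * ∑ v, hit G r v := by
        rw [ENNReal.tsum_add, ENNReal.tsum_mul_left]
        congr 2
        unfold hit
        exact Summable.tsum_finsetSum (fun _ _ => ENNReal.summable)
    _ ≤ T + ENNReal.ofReal (q ^ k) * (Fintype.card V * hbar) := by
        gcongr
        · rw [tsum_eq_sum (s := Finset.range T)]
          · rw [Finset.sum_congr rfl (g := fun _ => (1 : ℝ≥0∞))]
            · simp
            · intro t ht
              rw [if_pos (Finset.mem_range.mp ht)]
          · intro t ht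
            rw [if_neg (by simpa using ht)]
        · calc ∑ v, hit G r v ≤ ∑ _v : V, hbar := Finset.sum_le_sum fun v _ => hh v
            _ = _ := by simp

/-! ### Lower bound for the cover time of one walk -/

/-- `P_x` (some vertex of `R` is neither in `S` nor visited up to time `t`). -/
noncomputable def missTail (R S : Finset V) (x : V) (t : ℕ) : ℝ :=
  pathSum G x t (fun w => ∃ v ∈ R, v ∉ S ∧ ∀ s, w s ≠ v)

lemma missTail_le_coverTail (R : Finset V) (x : V) (t : ℕ) :
    missTail G R ∅ x t ≤ coverTail G (fun _ : Fin 1 => x) t := by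
  classical
  have h1 : coverTail G (fun _ : Fin 1 => x) t = pathSum G x t (fun w => ∃ v, ∀ s, w s ≠ v) := by
    unfold coverTail pathSum
    simp only [Finset.sum_filter]
    apply Fintype.sum_equiv (Equiv.funUnique (Fin 1) (Fin (t + 1) → V))
    intro w
    simp
  rw [h1]
  unfold missTail
  apply pathSum_mono
  rintro w _ ⟨v, _, _, hv⟩
  exact ⟨v, hv⟩

lemma missTail_zero [DecidableEq V] (R S : Finset V) (x : V) :
    missTail G R S x 0 = open Classical in if ∃ v ∈ R, v ∉ insert x S then 1 else 0 := by
  unfold missTail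
  rw [pathSum_zero]
  congr 1
  apply propext
  constructor
  · rintro ⟨v, hv, hS, hne⟩
    refine ⟨v, hv, ?_⟩
    rw [Finset.mem_insert]
    push Not
    exact ⟨(hne 0).symm, hS⟩
  · rintro ⟨v, hv, hS⟩
    rw [Finset.mem_insert] at hS
    push Not at hS
    exact ⟨v, hv, hS.2, fun _ => hS.1.symm⟩

lemma missTail_succ [DecidableEq V] (R S : Finset V) (x : V) (t : ℕ) :
    missTail G R S x (t + 1) = ∑ y, stepProb G x y * missTail G R (insert x S) y t := by
  unfold missTail
  rw [pathSum_succ]
  apply Finset.sum_congr rfl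
  intro y _
  congr 1
  congr 1
  funext w
  apply propext
  constructor
  · rintro ⟨v, hv, hS, hne⟩
    refine ⟨v, hv, ?_, fun s => hne s.succ⟩
    rw [Finset.mem_insert]
    push Not
    exact ⟨(hne 0).symm, hS⟩
  · rintro ⟨v, hv, hS, hne⟩
    rw [Finset.mem_insert] at hS
    push Not at hS
    refine ⟨v, hv, hS.2, fun s => ?_⟩
    refine Fin.cases ?_ (fun s => ?_) s
    · simpa using hS.1.symm
    · simpa using hne s

lemma missTail_nonneg (R S : Finset V) (x : V) (t : ℕ) : 0 ≤ missTail G R S x t :=
  pathSum_nonneg _ _ _ _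

lemma potential_lower [DecidableEq V] (R : Finset V) (F : Finset V → V → ℝ) (B : ℝ)
    (hB : ∀ S x, F S x ≤ B * missTail G R S x 0)
    (hstep : ∀ S x, F S x ≤ missTail G R S x 0 + ∑ y, stepProb G x y * F (insert x S) y)
    (n : ℕ) : ∀ S x, F S x ≤ ∑ t ∈ Finset.range n, missTail G R S x t + B * missTail G R S x n := by
  induction n with
  | zero => intro S x; simpa using hB S x
  | succ n ih =>
    intro S x
    calc F S x ≤ missTail G R S x 0 + ∑ y, stepProb G x y * F (insert x S) y := hstep S x
      _ ≤ missTail G R S x 0 + ∑ y, stepProb G x y *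
          (∑ t ∈ Finset.range n, missTail G R (insert x S) y t
            + B * missTail G R (insert x S) y n) := by
          gcongr with y _
          · exact stepProb_nonneg G x y
          · exact ih _ _
      _ = _ := by
          rw [Finset.sum_range_succ', missTail_succ]
          simp_rw [missTail_succ G R S x]
          rw [Finset.sum_comm]
          simp_rw [← Finset.mul_sum, mul_add, Finset.sum_add_distrib]
          have h1 : ∀ y, stepProb G x y * (B * missTail G R (insert x S) y n)
              = B * (stepProb G x y * missTail G R (insert x S) y n) := fun y => by ring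
          rw [Finset.sum_congr rfl (fun y _ => h1 y)]
          rw [← Finset.mul_sum]
          ring

/-- Lower bound for the expected cover time by a potential. -/
lemma le_coverTime [DecidableEq V] (R : Finset V) (F : Finset V → V → ℝ) (B : ℝ)
    (hB : ∀ S x, F S x ≤ B * missTail G R S x 0)
    (hstep : ∀ S x, F S x ≤ missTail G R S x 0 + ∑ y, stepProb G x y * F (insert x S) y)
    (x : V) : ENNReal.ofReal (F ∅ x) ≤ coverTime G (fun _ : Fin 1 => x) := by
  have hle : ∑' t, ENNReal.ofReal (missTail G R ∅ x t) ≤ coverTime G (fun _ : Fin 1 => x) :=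
    ENNReal.tsum_le_tsum fun t => ENNReal.ofReal_le_ofReal (missTail_le_coverTail G R x t)
  refine le_trans ?_ hle
  by_cases htop : ∑' t, ENNReal.ofReal (missTail G R ∅ x t) = ⊤
  · rw [htop]; exact le_top
  · have hsum : Summable (fun t => missTail G R ∅ x t) := by
      have := ENNReal.summable_toReal htop
      refine this.congr fun t => ?_
      rw [ENNReal.toReal_ofReal (missTail_nonneg G R ∅ x t)]
    have hlim : Filter.Tendsto (fun n => ∑ t ∈ Finset.range n, missTail G R ∅ x t
        + B * missTail G R ∅ x n) Filter.atTop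
        (nhds (∑' t, missTail G R ∅ x t + B * 0)) := by
      apply Filter.Tendsto.add hsum.hasSum.tendsto_sum_nat
      exact hsum.tendsto_atTop_zero.const_mul B
    have h1 : F ∅ x ≤ ∑' t, missTail G R ∅ x t + B * 0 :=
      ge_of_tendsto' hlim fun n => potential_lower G R F B hB hstep n ∅ x
    rw [mul_zero, add_zero] at h1
    rw [← ENNReal.ofReal_tsum_of_nonneg (fun t => missTail_nonneg G R ∅ x t) hsum]
    exact ENNReal.ofReal_le_ofReal h1

/-! ### The graph: two cliques sharing a vertex -/

/-- The vertices: the shared vertex `none`, the `m` other vertices `some (Sum.inl _)` of the small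
clique and the `M` other vertices `some (Sum.inr _)` of the large clique. -/
abbrev Vert (m M : ℕ) := Option (Fin m ⊕ Fin M)

/-- Adjacency in the union of two cliques sharing the vertex `none`. -/
def gluedAdj {m M : ℕ} : Vert m M → Vert m M → Prop
  | none, none => False
  | none, some _ => True
  | some _, none => True
  | some (Sum.inl r), some (Sum.inl r') => r ≠ r'
  | some (Sum.inr b), some (Sum.inr b') => b ≠ b'
  | some (Sum.inl _), some (Sum.inr _) => False
  | some (Sum.inr _), some (Sum.inl _) => False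

/-- The union of two cliques, with `m + 1` and `M + 1` vertices, sharing exactly one vertex. -/
def glued (m M : ℕ) : SimpleGraph (Vert m M) where
  Adj := gluedAdj
  symm := ⟨by
    intro x y h
    rcases x with _ | x | x <;> rcases y with _ | y | y <;> simp_all [gluedAdj, eq_comm]⟩
  loopless := ⟨by
    intro x h
    rcases x with _ | x | x <;> simp_all [gluedAdj]⟩

lemma card_neighborSet_real (x : V) :
    (Nat.card (G.neighborSet x) : ℝ) = ∑ y, (open Classical in if G.Adj x y then (1 : ℝ) else 0) := by
  classical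
  rw [Finset.sum_boole, Nat.card_eq_fintype_card, SimpleGraph.card_neighborSet_eq_degree,
      ← SimpleGraph.card_neighborFinset_eq_degree, SimpleGraph.neighborFinset_eq_filter]

variable {m M : ℕ}

lemma sum_ne {n : ℕ} (r : Fin n) (f : Fin n → ℝ) :
    ∑ r', (open Classical in if r ≠ r' then f r' else 0) = ∑ r', f r' - f r := by
  classical
  have h : ∀ r', (if r ≠ r' then f r' else 0) = f r' - (if r = r' then f r' else 0) := by
    intro r'
    by_cases h : r = r' <;> simp [h]
  rw [Finset.sum_congr rfl (fun r' _ => h r'), Finset.sum_sub_distrib]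
  simp

/-- Sum of `f` over the neighbours of `x`. -/
noncomputable def adjSum (x : Vert m M) (f : Vert m M → ℝ) : ℝ :=
  ∑ y, (open Classical in if (glued m M).Adj x y then f y else 0)

lemma adjSum_none (f : Vert m M → ℝ) :
    adjSum none f = ∑ r, f (some (Sum.inl r)) + ∑ b, f (some (Sum.inr b)) := by
  unfold adjSum
  rw [Fintype.sum_option, Fintype.sum_sum_type]
  simp [glued, gluedAdj]

lemma adjSum_inl (r : Fin m) (f : Vert m M → ℝ) :
    adjSum (some (Sum.inl r)) f
      = f none + (∑ r', f (some (Sum.inl r')) - f (some (Sum.inl r))) := by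
  unfold adjSum
  rw [Fintype.sum_option, Fintype.sum_sum_type, ← sum_ne r (fun r' => f (some (Sum.inl r')))]
  simp [glued, gluedAdj]
  apply Finset.sum_congr rfl
  intro r' _
  by_cases h : r = r' <;> simp [h]

lemma adjSum_inr (b : Fin M) (f : Vert m M → ℝ) :
    adjSum (some (Sum.inr b)) f
      = f none + (∑ b', f (some (Sum.inr b')) - f (some (Sum.inr b))) := by
  unfold adjSum
  rw [Fintype.sum_option, Fintype.sum_sum_type, ← sum_ne b (fun b' => f (some (Sum.inr b')))]
  simp [glued, gluedAdj]
  apply Finset.sum_congr rfl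
  intro r' _
  by_cases h : b = r' <;> simp [h]

lemma step_eq (x : Vert m M) (f : Vert m M → ℝ) :
    ∑ y, stepProb (glued m M) x y * f y = adjSum x f / adjSum x (fun _ => 1) := by
  rw [sum_stepProb_mul, card_neighborSet_real]
  unfold adjSum
  ring

lemma step_none (f : Vert m M → ℝ) :
    ∑ y, stepProb (glued m M) none y * f y
      = (∑ r, f (some (Sum.inl r)) + ∑ b, f (some (Sum.inr b))) / (m + M) := by
  rw [step_eq, adjSum_none, adjSum_none]
  simp

lemma step_inl (r : Fin m) (f : Vert m M → ℝ) :
    ∑ y, stepProb (glued m M) (some (Sum.inl r)) y * f y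
      = (f none + (∑ r', f (some (Sum.inl r')) - f (some (Sum.inl r)))) / m := by
  rw [step_eq, adjSum_inl, adjSum_inl]
  simp

lemma step_inr (b : Fin M) (f : Vert m M → ℝ) :
    ∑ y, stepProb (glued m M) (some (Sum.inr b)) y * f y
      = (f none + (∑ b', f (some (Sum.inr b')) - f (some (Sum.inr b)))) / M := by
  rw [step_eq, adjSum_inr, adjSum_inr]
  simp

lemma glued_connected : (glued m M).Connected := by
  rw [SimpleGraph.connected_iff]
  refine ⟨?_, ⟨none⟩⟩
  have h : ∀ x : Vert m M, (glued m M).Reachable x none := by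
    intro x
    rcases x with _ | x
    · exact SimpleGraph.Reachable.refl _
    · apply SimpleGraph.Adj.reachable
      rcases x with x | x <;> trivial
  intro x y
  exact (h x).trans (h y).symm

/-! ### Hitting times in the graph -/

/-- The constant `K`: expected time to go from one vertex of the small clique to another one. -/
noncomputable def KK (m M : ℝ) : ℝ := (M ^ 2 + M + m ^ 2 + m) / (m + 1)

/-- The constant `τ`. -/
noncomputable def tt (m M : ℝ) : ℝ := (m + M + M ^ 2) / m

/-- Potential for hitting `some (Sum.inl v)`. -/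
noncomputable def potL (m M : ℕ) (v : Fin m) : Vert m M → ℝ
  | none => tt m M + (m - 1) / m * KK m M
  | some (Sum.inl r) => if r = v then 0 else KK m M
  | some (Sum.inr _) => M + (tt m M + (m - 1) / m * KK m M)

/-- Potential for hitting `some (Sum.inr v)`. -/
noncomputable def potR (m M : ℕ) (v : Fin M) : Vert m M → ℝ
  | none => tt M m + (M - 1) / M * KK M m
  | some (Sum.inl _) => m + (tt M m + (M - 1) / M * KK M m)
  | some (Sum.inr b) => if b = v then 0 else KK M m

/-- Potential for hitting `none`. -/
noncomputable def potN (m M : ℕ) : Vert m M → ℝ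
  | none => 0
  | some (Sum.inl _) => m
  | some (Sum.inr _) => M

lemma KK_nonneg {m M : ℝ} (hm : 0 ≤ m) (hM : 0 ≤ M) : 0 ≤ KK m M := by
  unfold KK; positivity

lemma tt_nonneg {m M : ℝ} (hm : 0 ≤ m) (hM : 0 ≤ M) : 0 ≤ tt m M := by
  unfold tt; positivity

lemma sum_potL_inl (v : Fin m) : ∑ r, potL m M v (some (Sum.inl r)) = (m - 1) * KK m M := by
  have h : ∀ r : Fin m, potL m M v (some (Sum.inl r)) = KK m M - (if r = v then KK m M else 0) := by
    intro r
    simp only [potL]
    split_ifs <;> ring
  simp_rw [h]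
  rw [Finset.sum_sub_distrib]
  simp
  ring

lemma sum_potR_inr (v : Fin M) : ∑ b, potR m M v (some (Sum.inr b)) = (M - 1) * KK M m := by
  have h : ∀ r : Fin M, potR m M v (some (Sum.inr r)) = KK M m - (if r = v then KK M m else 0) := by
    intro r
    simp only [potR]
    split_ifs <;> ring
  simp_rw [h]
  rw [Finset.sum_sub_distrib]
  simp
  ring

lemma potL_step (hm : 0 < m) (hM : 0 < M) (v : Fin m) (x : Vert m M)
    (hx : x ≠ some (Sum.inl v)) :
    1 + ∑ y, stepProb (glued m M) x y * potL m M v y ≤ potL m M v x := by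
  have hm' : (0 : ℝ) < m := by exact_mod_cast hm
  have hM' : (0 : ℝ) < M := by exact_mod_cast hM
  apply le_of_eq
  rcases x with _ | r | b
  · rw [step_none, sum_potL_inl]
    simp only [potL, Finset.sum_const, Finset.card_univ, Fintype.card_fin, nsmul_eq_mul]
    unfold tt KK
    field_simp
    ring
  · have hr : r ≠ v := fun h => hx (by rw [h])
    rw [step_inl, sum_potL_inl]
    simp only [potL, if_neg hr]
    unfold tt KK
    field_simp
    ring
  · rw [step_inr]
    simp only [potL, Finset.sum_const, Finset.card_univ, Fintype.card_fin, nsmul_eq_mul]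
    unfold tt KK
    field_simp
    ring

lemma potR_step (hm : 0 < m) (hM : 0 < M) (v : Fin M) (x : Vert m M)
    (hx : x ≠ some (Sum.inr v)) :
    1 + ∑ y, stepProb (glued m M) x y * potR m M v y ≤ potR m M v x := by
  have hm' : (0 : ℝ) < m := by exact_mod_cast hm
  have hM' : (0 : ℝ) < M := by exact_mod_cast hM
  apply le_of_eq
  rcases x with _ | r | b
  · rw [step_none, sum_potR_inr]
    simp only [potR, Finset.sum_const, Finset.card_univ, Fintype.card_fin, nsmul_eq_mul]
    unfold tt KK
    field_simp
    ring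
  · rw [step_inl]
    simp only [potR, Finset.sum_const, Finset.card_univ, Fintype.card_fin, nsmul_eq_mul]
    unfold tt KK
    field_simp
    ring
  · have hr : b ≠ v := fun h => hx (by rw [h])
    rw [step_inr, sum_potR_inr]
    simp only [potR, if_neg hr]
    unfold tt KK
    field_simp
    ring

lemma potN_step (hm : 0 < m) (hM : 0 < M) (x : Vert m M) (hx : x ≠ none) :
    1 + ∑ y, stepProb (glued m M) x y * potN m M y ≤ potN m M x := by
  have hm' : (0 : ℝ) < m := by exact_mod_cast hm
  have hM' : (0 : ℝ) < M := by exact_mod_cast hM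
  apply le_of_eq
  rcases x with _ | r | b
  · exact absurd rfl hx
  · rw [step_inl]
    simp only [potN, Finset.sum_const, Finset.card_univ, Fintype.card_fin, nsmul_eq_mul]
    field_simp
    ring
  · rw [step_inr]
    simp only [potN, Finset.sum_const, Finset.card_univ, Fintype.card_fin, nsmul_eq_mul]
    field_simp
    ring

/-! ### Tails of hitting times -/

/-- Bounding function for the tail of the hitting time of `some (Sum.inl v)`. -/
noncomputable def tailBd (m M : ℕ) (v : Fin m) (t : ℕ) : Vert m M → ℝ
  | none => 1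
  | some (Sum.inl r) => if r = v then 0 else 1 / 2 + 1 / 2 * (1 - 2 / m) ^ t
  | some (Sum.inr _) => 1

lemma hitTail_le_tailBd (hm : 2 ≤ m) (v : Fin m) (t : ℕ) :
    ∀ x : Vert m M, hitTail (glued m M) x (some (Sum.inl v)) t ≤ tailBd m M v t x := by
  have hm' : (2 : ℝ) ≤ m := by exact_mod_cast hm
  induction t with
  | zero =>
    intro x
    rcases x with _ | r | b
    · exact hitTail_le_one _ _ _ _
    · by_cases h : r = v
      · subst h
        rw [hitTail_self]
        simp [tailBd]
      · refine (hitTail_le_one _ _ _ _).trans ?_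
        simp only [tailBd, if_neg h, pow_zero]
        norm_num
    · exact hitTail_le_one _ _ _ _
  | succ t ih =>
    intro x
    rcases x with _ | r | b
    · exact hitTail_le_one _ _ _ _
    · by_cases h : r = v
      · subst h
        rw [hitTail_self]
        simp [tailBd]
      · rw [hitTail_succ _ _ _ (by simpa using h)]
        calc _ ≤ ∑ y, stepProb (glued m M) (some (Sum.inl r)) y * tailBd m M v t y := by
              gcongr with y _
              · exact stepProb_nonneg _ _ _
              · exact ih y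
          _ = tailBd m M v (t + 1) (some (Sum.inl r)) := by
              rw [step_inl]
              have hs : ∑ r', tailBd m M v t (some (Sum.inl r'))
                  = (m - 1) * (1 / 2 + 1 / 2 * (1 - 2 / m) ^ t) := by
                have h2 : ∀ r' : Fin m, tailBd m M v t (some (Sum.inl r'))
                    = (1 / 2 + 1 / 2 * (1 - 2 / (m : ℝ)) ^ t)
                      - (if r' = v then (1 / 2 + 1 / 2 * (1 - 2 / (m : ℝ)) ^ t) else 0) := by
                  intro r'
                  simp only [tailBd]
                  split_ifs <;> ring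
                simp_rw [h2]
                rw [Finset.sum_sub_distrib]
                simp
                ring
              rw [hs]
              simp only [tailBd, if_neg h]
              rw [pow_succ]
              have hm0 : (m : ℝ) ≠ 0 := by positivity
              generalize (1 - 2 / (m : ℝ)) ^ t = q
              field_simp
              ring
    · exact hitTail_le_one _ _ _ _

lemma pow_bd (hm : 2 ≤ m) (t : ℕ) (ht : m ≤ t) : (1 - 2 / (m : ℝ)) ^ t ≤ 1 / 3 := by
  have hm' : (2 : ℝ) ≤ m := by exact_mod_cast hm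
  have hm0 : (0 : ℝ) < m := by linarith
  have h0 : 0 ≤ 1 - 2 / (m : ℝ) := by
    rw [sub_nonneg, div_le_one hm0]; exact hm'
  have h1 : (1 + t * (2 / (m : ℝ))) ≤ (1 + 2 / (m : ℝ)) ^ t :=
    one_add_mul_le_pow (by have : 0 ≤ 2 / (m : ℝ) := by positivity
                           linarith) t
  have h2 : (3 : ℝ) ≤ 1 + t * (2 / (m : ℝ)) := by
    have : (2 : ℝ) ≤ t * (2 / (m : ℝ)) := by
      rw [← mul_div_assoc, le_div_iff₀ hm0]
      have : (m : ℝ) ≤ t := by exact_mod_cast ht
      linarith
    linarith
  have h3 : (1 - 2 / (m : ℝ)) ^ t * (1 + 2 / (m : ℝ)) ^ t ≤ 1 := by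
    rw [← mul_pow]
    apply pow_le_one₀
    · apply mul_nonneg h0
      positivity
    · have : (1 - 2 / (m : ℝ)) * (1 + 2 / (m : ℝ)) = 1 - (2 / (m : ℝ)) ^ 2 := by ring
      rw [this]
      have : 0 ≤ (2 / (m : ℝ)) ^ 2 := by positivity
      linarith
  have h4 : 0 ≤ (1 - 2 / (m : ℝ)) ^ t := pow_nonneg h0 t
  nlinarith

/-! ### Lower bound for the cover time -/

/-- Harmonic sums. -/
noncomputable def harm (u : ℕ) : ℝ := ∑ i ∈ Finset.range u, 1 / ((i : ℝ) + 1)

lemma harm_succ (u : ℕ) : harm (u + 1) = harm u + 1 / ((u : ℝ) + 1) := by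
  unfold harm; rw [Finset.sum_range_succ]

lemma harm_zero : harm 0 = 0 := by simp [harm]

lemma harm_nonneg (u : ℕ) : 0 ≤ harm u := by
  unfold harm
  exact Finset.sum_nonneg fun i _ => by positivity

lemma harm_mono : Monotone harm := by
  apply monotone_nat_of_le_succ
  intro u
  rw [harm_succ]
  have : (0 : ℝ) ≤ 1 / ((u : ℝ) + 1) := by positivity
  linarith

lemma log_le_harm (u : ℕ) : Real.log ((u + 1 : ℕ) : ℝ) ≤ harm u := by
  have h := log_add_one_le_harmonic u
  have h2 : ((harmonic u : ℚ) : ℝ) = harm u := by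
    unfold harmonic harm
    push_cast
    apply Finset.sum_congr rfl
    intro i _
    rw [one_div]
  rw [← h2]
  exact h

/-- The number of vertices of the small clique (without the shared vertex) outside `S`. -/
def unc (S : Finset (Vert m M)) : ℕ :=
  (Finset.univ.filter fun r : Fin m => some (Sum.inl r) ∉ S).card

lemma unc_le (S : Finset (Vert m M)) : unc S ≤ m := by
  unfold unc
  exact (Finset.card_le_univ _).trans (by simp)

lemma unc_insert_none (S : Finset (Vert m M)) : unc (insert none S) = unc S := by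
  unfold unc
  congr 1
  apply Finset.filter_congr
  intro r _
  simp

lemma unc_insert_inr (S : Finset (Vert m M)) (b : Fin M) :
    unc (insert (some (Sum.inr b)) S) = unc S := by
  unfold unc
  congr 1
  apply Finset.filter_congr
  intro r _
  simp

lemma unc_insert_inl_mem (S : Finset (Vert m M)) (r : Fin m) (h : some (Sum.inl r) ∈ S) :
    unc (insert (some (Sum.inl r)) S) = unc S := by
  rw [Finset.insert_eq_of_mem h]

lemma unc_insert_inl_notMem (S : Finset (Vert m M)) (r : Fin m) (h : some (Sum.inl r) ∉ S) :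
    unc (insert (some (Sum.inl r)) S) + 1 = unc S := by
  unfold unc
  have : (Finset.univ.filter fun r' : Fin m => some (Sum.inl r') ∉ S)
      = insert r (Finset.univ.filter fun r' : Fin m =>
        (some (Sum.inl r') : Vert m M) ∉ insert (some (Sum.inl r)) S) := by
    ext r'
    simp only [Finset.mem_filter, Finset.mem_univ, true_and, Finset.mem_insert, not_or]
    by_cases hr : r' = r
    · subst hr; simp [h]
    · simp [hr]
  rw [this, Finset.card_insert_of_notMem]
  simp

/-- The value of the potential at `x` when `u` vertices of the small clique are missing. -/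
noncomputable def Fval (m M : ℕ) (u : ℕ) : Vert m M → ℝ
  | some (Sum.inl _) => KK m M * harm u
  | none => if u = 0 then 0 else
      tt m M + u / m * (KK m M * harm (u - 1)) + (m - u) / m * (KK m M * harm u)
  | some (Sum.inr _) => if u = 0 then 0 else
      M + (tt m M + u / m * (KK m M * harm (u - 1)) + (m - u) / m * (KK m M * harm u))

/-- The potential. -/
noncomputable def FF (m M : ℕ) (S : Finset (Vert m M)) (x : Vert m M) : ℝ :=
  Fval m M (unc (insert x S)) x

/-- The vertices of the small clique other than the shared one. -/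
def RR (m M : ℕ) : Finset (Vert m M) := Finset.univ.image fun r : Fin m => some (Sum.inl r)

lemma missTail_RR_zero (S : Finset (Vert m M)) (x : Vert m M) :
    missTail (glued m M) (RR m M) S x 0 = if unc (insert x S) = 0 then 0 else 1 := by
  rw [missTail_zero]
  have : (∃ v ∈ RR m M, v ∉ insert x S) ↔ ¬ (unc (insert x S) = 0) := by
    unfold unc RR
    rw [Finset.card_eq_zero, Finset.filter_eq_empty_iff]
    push Not
    constructor
    · rintro ⟨v, hv, hS⟩
      rw [Finset.mem_image] at hv
      obtain ⟨r, _, rfl⟩ := hv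
      exact ⟨r, Finset.mem_univ _, hS⟩
    · rintro ⟨r, _, hS⟩
      exact ⟨some (Sum.inl r), Finset.mem_image.mpr ⟨r, Finset.mem_univ _, rfl⟩, hS⟩
  by_cases h : unc (insert x S) = 0
  · rw [if_pos h, if_neg]
    rw [this]
    exact fun h2 => h2 h
  · rw [if_neg h, if_pos]
    rw [this]
    exact h

lemma Fval_nonneg (u : ℕ) (hu : u ≤ m) (x : Vert m M) : 0 ≤ Fval m M u x := by
  have hK : 0 ≤ KK (m : ℝ) M := KK_nonneg (by positivity) (by positivity)
  have ht : 0 ≤ tt (m : ℝ) M := tt_nonneg (by positivity) (by positivity)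
  have hu' : (u : ℝ) ≤ m := by exact_mod_cast hu
  have h1 := harm_nonneg u
  have h2 := harm_nonneg (u - 1)
  have h3 : 0 ≤ ((m : ℝ) - u) / m := div_nonneg (by linarith) (by positivity)
  rcases x with _ | r | b
  · simp only [Fval]
    split_ifs
    · exact le_rfl
    · positivity
  · simp only [Fval]
    positivity
  · simp only [Fval]
    split_ifs
    · exact le_rfl
    · positivity

lemma sum_FF_inl (S : Finset (Vert m M)) (u : ℕ) (hu : unc S = u + 1) :
    ∑ r, FF m M S (some (Sum.inl r))
      = (u + 1) * (KK m M * harm u) + (m - (u + 1)) * (KK m M * harm (u + 1)) := by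
  have h : ∀ r : Fin m, FF m M S (some (Sum.inl r))
      = KK m M * harm (u + 1)
        + (if some (Sum.inl r) ∉ S then (KK m M * harm u - KK m M * harm (u + 1)) else 0) := by
    intro r
    unfold FF
    simp only [Fval]
    by_cases hr : some (Sum.inl r) ∈ S
    · rw [unc_insert_inl_mem S r hr, hu]
      simp [hr]
    · have h2 := unc_insert_inl_notMem S r hr
      rw [hu] at h2
      have h3 : unc (insert (some (Sum.inl r)) S) = u := by omega
      rw [h3]
      simp [hr]
  simp_rw [h]
  rw [Finset.sum_add_distrib, ← Finset.sum_filter, Finset.sum_const, Finset.sum_const]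
  have hc : (Finset.univ.filter fun r : Fin m => some (Sum.inl r) ∉ S).card = u + 1 := hu
  rw [hc]
  simp only [Finset.card_univ, Fintype.card_fin, nsmul_eq_mul]
  push_cast
  ring

lemma FF_step (hm : 0 < m) (hM : 0 < M) (S : Finset (Vert m M)) (x : Vert m M) :
    FF m M S x ≤ missTail (glued m M) (RR m M) S x 0
      + ∑ y, stepProb (glued m M) x y * FF m M (insert x S) y := by
  have hm' : (0 : ℝ) < m := by exact_mod_cast hm
  have hM' : (0 : ℝ) < M := by exact_mod_cast hM
  rw [missTail_RR_zero]
  have hnn : 0 ≤ ∑ y, stepProb (glued m M) x y * FF m M (insert x S) y := by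
    apply Finset.sum_nonneg
    intro y _
    exact mul_nonneg (stepProb_nonneg _ _ _) (Fval_nonneg _ (unc_le _) _)
  by_cases h0 : unc (insert x S) = 0
  · rw [if_pos h0]
    have : FF m M S x = 0 := by
      unfold FF
      rw [h0]
      rcases x with _ | r | b <;> simp [Fval, harm_zero]
    rw [this]
    linarith
  · rw [if_neg h0]
    obtain ⟨u, hu⟩ := Nat.exists_eq_succ_of_ne_zero h0
    rw [Nat.succ_eq_add_one] at hu
    apply le_of_eq
    have hnone : FF m M (insert x S) none = tt m M + (u + 1) / m * (KK m M * harm u)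
        + (m - (u + 1)) / m * (KK m M * harm (u + 1)) := by
      unfold FF
      rw [unc_insert_none, hu]
      simp only [Fval, Nat.add_sub_cancel]
      rw [if_neg (by omega)]
      push_cast
      ring
    have hinr : ∀ b, FF m M (insert x S) (some (Sum.inr b)) = M + FF m M (insert x S) none := by
      intro b
      unfold FF
      rw [unc_insert_none, unc_insert_inr, hu]
      simp only [Fval]
      rw [if_neg (by omega), if_neg (by omega)]
    have hsum := sum_FF_inl (insert x S) u hu
    rcases x with _ | r | b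
    · rw [step_none, hsum]
      simp_rw [hinr]
      rw [Finset.sum_const, hnone]
      have hx : FF m M S none = FF m M (insert none S) none := by
        unfold FF
        rw [Finset.insert_idem]
      rw [hx, hnone]
      simp only [Finset.card_univ, Fintype.card_fin, nsmul_eq_mul]
      generalize KK (m : ℝ) M * harm u = A
      generalize KK (m : ℝ) M * harm (u + 1) = B
      unfold tt
      field_simp
      ring
    · rw [step_inl, hsum, hnone]
      have hx : FF m M S (some (Sum.inl r)) = KK m M * harm (u + 1) := by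
        unfold FF
        rw [hu]
        simp only [Fval]
      have hx2 : FF m M (insert (some (Sum.inl r)) S) (some (Sum.inl r))
          = KK m M * harm (u + 1) := by
        unfold FF
        rw [Finset.insert_idem, hu]
        simp only [Fval]
      rw [hx, hx2, harm_succ]
      have hu0 : ((u : ℝ) + 1) ≠ 0 := by positivity
      generalize harm u = A
      unfold tt KK
      field_simp
      ring
    · rw [step_inr]
      simp_rw [hinr]
      rw [Finset.sum_const, hnone]
      have hx : FF m M S (some (Sum.inr b)) = M + FF m M (insert (some (Sum.inr b)) S) none := by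
        have h1 : FF m M S (some (Sum.inr b))
            = FF m M (insert (some (Sum.inr b)) S) (some (Sum.inr b)) := by
          unfold FF
          rw [Finset.insert_idem]
        rw [h1, hinr b]
      rw [hx, hnone]
      simp only [Finset.card_univ, Fintype.card_fin, nsmul_eq_mul]
      generalize KK (m : ℝ) M * harm u = A
      generalize KK (m : ℝ) M * harm (u + 1) = B
      field_simp
      ring

lemma FF_bd (hm : 0 < m) (S : Finset (Vert m M)) (x : Vert m M) :
    FF m M S x ≤ (M + tt m M + 2 * (KK m M * harm m))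
      * missTail (glued m M) (RR m M) S x 0 := by
  have hm' : (0 : ℝ) < m := by exact_mod_cast hm
  have hK : 0 ≤ KK (m : ℝ) M := KK_nonneg (by positivity) (by positivity)
  have ht : 0 ≤ tt (m : ℝ) M := tt_nonneg (by positivity) (by positivity)
  rw [missTail_RR_zero]
  by_cases h0 : unc (insert x S) = 0
  · rw [if_pos h0]
    have : FF m M S x = 0 := by
      unfold FF
      rw [h0]
      rcases x with _ | r | b <;> simp [Fval, harm_zero]
    rw [this]
    simp
  · rw [if_neg h0, mul_one]
    unfold FF
    have hle := unc_le (insert x S)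
    generalize unc (insert x S) = u at *
    have h1 : KK m M * harm u ≤ KK m M * harm m := by
      gcongr
      exact harm_mono hle
    have h2 : KK m M * harm (u - 1) ≤ KK m M * harm m := by
      gcongr
      exact harm_mono (by omega)
    have h1' : 0 ≤ KK m M * harm u := mul_nonneg hK (harm_nonneg _)
    have h2' : 0 ≤ KK m M * harm (u - 1) := mul_nonneg hK (harm_nonneg _)
    have hu' : (u : ℝ) ≤ m := by exact_mod_cast hle
    have h3 : (u : ℝ) / m * (KK m M * harm (u - 1)) ≤ 1 * (KK m M * harm m) := by
      gcongr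
      rw [div_le_one hm']
      exact hu'
    have h4 : ((m : ℝ) - u) / m * (KK m M * harm u) ≤ 1 * (KK m M * harm m) := by
      gcongr
      rw [div_le_one hm']
      have : (0 : ℝ) ≤ u := by positivity
      linarith
    have hM0 : (0 : ℝ) ≤ M := by positivity
    rcases x with _ | r | b
    · simp only [Fval]
      rw [if_neg h0]
      linarith
    · simp only [Fval]
      linarith
    · simp only [Fval]
      rw [if_neg h0]
      linarith

/-- Lower bound for the largest expected cover time. -/
lemma cMax_lower (hm : 0 < m) (hM : 0 < M) :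
    ENNReal.ofReal (KK m M * harm (m - 1)) ≤ cMax (glued m M) := by
  have h := le_coverTime (glued m M) (RR m M) (FF m M) _ (FF_bd hm) (FF_step hm hM)
    (some (Sum.inl ⟨0, hm⟩))
  refine le_trans ?_ (h.trans (le_iSup (fun x => coverTime (glued m M) (fun _ : Fin 1 => x)) _))
  apply ENNReal.ofReal_le_ofReal
  apply le_of_eq
  unfold FF
  simp only [Fval]
  congr 2
  have h1 := unc_insert_inl_notMem (∅ : Finset (Vert m M)) ⟨0, hm⟩ (by simp)
  have h2 : unc (∅ : Finset (Vert m M)) = m := by
    unfold unc
    simp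
  rw [h2] at h1
  omega

/-! ### The parameters -/

/-- The graph used for the size parameter `m`: cliques with `m + 1` and `m ^ 2 + 1` vertices. -/
abbrev GG (m : ℕ) : SimpleGraph (Vert m (m ^ 2)) := glued m (m ^ 2)

lemma KK_bounds (m : ℝ) (hm : 1 ≤ m) :
    m ^ 3 / 2 ≤ KK m (m ^ 2) ∧ KK m (m ^ 2) ≤ 2 * m ^ 3 := by
  unfold KK
  have h0 : 0 < m + 1 := by linarith
  have hm2 : 1 ≤ m ^ 2 := one_le_pow₀ hm
  have hm3 : m ≤ m ^ 3 := by nlinarith
  have hm23 : m ^ 2 ≤ m ^ 3 := by nlinarith
  have hm34 : m ^ 3 ≤ m ^ 4 := by nlinarith [mul_nonneg (by linarith : (0:ℝ) ≤ m - 1) (by positivity : 0 ≤ m ^ 3)]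
  constructor
  · rw [le_div_iff₀ h0]
    nlinarith
  · rw [div_le_iff₀ h0]
    nlinarith

lemma KK_swap_bound (m : ℝ) (hm : 1 ≤ m) : KK (m ^ 2) m ≤ m ^ 2 + 2 := by
  unfold KK
  have hm2 : 1 ≤ m ^ 2 := one_le_pow₀ hm
  rw [div_le_iff₀ (by positivity)]
  nlinarith

lemma tt_bound (m : ℝ) (hm : 1 ≤ m) : tt m (m ^ 2) ≤ m ^ 3 + m + 1 := by
  unfold tt
  rw [div_le_iff₀ (by linarith)]
  nlinarith

lemma tt_swap_bound (m : ℝ) (hm : 1 ≤ m) : tt (m ^ 2) m ≤ 3 := by
  unfold tt
  have hm2 : 1 ≤ m ^ 2 := one_le_pow₀ hm
  rw [div_le_iff₀ (by positivity)]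
  nlinarith

lemma potL_nonneg (hm : 0 < m) (v : Fin m) (x : Vert m M) : 0 ≤ potL m M v x := by
  have hm' : (1 : ℝ) ≤ m := by exact_mod_cast hm
  have hK : 0 ≤ KK (m : ℝ) M := KK_nonneg (by positivity) (by positivity)
  have ht : 0 ≤ tt (m : ℝ) M := tt_nonneg (by positivity) (by positivity)
  have h1 : 0 ≤ ((m : ℝ) - 1) / m := div_nonneg (by linarith) (by positivity)
  rcases x with _ | r | b
  · simp only [potL]; positivity
  · simp only [potL]; split_ifs
    · exact le_rfl
    · exact hK
  · simp only [potL]; positivity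

lemma potR_nonneg (hM : 0 < M) (v : Fin M) (x : Vert m M) : 0 ≤ potR m M v x := by
  have hM' : (1 : ℝ) ≤ M := by exact_mod_cast hM
  have hK : 0 ≤ KK (M : ℝ) m := KK_nonneg (by positivity) (by positivity)
  have ht : 0 ≤ tt (M : ℝ) m := tt_nonneg (by positivity) (by positivity)
  have h1 : 0 ≤ ((M : ℝ) - 1) / M := div_nonneg (by linarith) (by positivity)
  rcases x with _ | r | b
  · simp only [potR]; positivity
  · simp only [potR]; positivity
  · simp only [potR]; split_ifs
    · exact le_rfl
    · exact hK

lemma potN_nonneg (x : Vert m M) : 0 ≤ potN m M x := by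
  rcases x with _ | r | b <;> simp [potN]

lemma frac_mul_le {a K : ℝ} (ha : 1 ≤ a) (hK : 0 ≤ K) : (a - 1) / a * K ≤ K := by
  have h : (a - 1) / a ≤ 1 := by
    rw [div_le_one (by linarith)]; linarith
  calc (a - 1) / a * K ≤ 1 * K := mul_le_mul_of_nonneg_right h hK
    _ = K := one_mul K

lemma potL_le (hm : 0 < m) (v : Fin m) (x : Vert m (m ^ 2)) :
    potL m (m ^ 2) v x ≤ 6 * (m : ℝ) ^ 3 := by
  have hm' : (1 : ℝ) ≤ m := by exact_mod_cast hm
  have hm2 : (1 : ℝ) ≤ (m : ℝ) ^ 2 := one_le_pow₀ hm'
  have hm3 : (m : ℝ) ≤ (m : ℝ) ^ 3 := by nlinarith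
  have hm23 : (m : ℝ) ^ 2 ≤ (m : ℝ) ^ 3 := by nlinarith
  have hK : 0 ≤ KK (m : ℝ) ((m : ℝ) ^ 2) := KK_nonneg (by positivity) (by positivity)
  obtain ⟨_, hK2⟩ := KK_bounds m hm'
  have ht := tt_bound m hm'
  have hf := frac_mul_le hm' hK
  rcases x with _ | r | b
  · simp only [potL]; push_cast; linarith
  · simp only [potL]; push_cast
    split_ifs
    · positivity
    · linarith
  · simp only [potL]; push_cast; linarith

lemma potR_le (hm : 4 ≤ m) (v : Fin (m ^ 2)) (x : Vert m (m ^ 2)) :
    potR m (m ^ 2) v x ≤ 2 * (m : ℝ) ^ 2 := by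
  have hm4 : (4 : ℝ) ≤ m := by exact_mod_cast hm
  have hm' : (1 : ℝ) ≤ m := by linarith
  have hm2 : (1 : ℝ) ≤ (m : ℝ) ^ 2 := one_le_pow₀ hm'
  have hK : 0 ≤ KK ((m : ℝ) ^ 2) (m : ℝ) := KK_nonneg (by positivity) (by positivity)
  have hK2 := KK_swap_bound m hm'
  have ht := tt_swap_bound m hm'
  have hf := frac_mul_le hm2 hK
  have hbig : (m : ℝ) + 5 ≤ (m : ℝ) ^ 2 := by nlinarith
  rcases x with _ | r | b
  · simp only [potR]; push_cast; linarith
  · simp only [potR]; push_cast; linarith
  · simp only [potR]; push_cast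
    split_ifs
    · positivity
    · linarith

lemma potN_le (hm : 0 < m) (x : Vert m (m ^ 2)) : potN m (m ^ 2) x ≤ (m : ℝ) ^ 2 := by
  have hm' : (1 : ℝ) ≤ m := by exact_mod_cast hm
  rcases x with _ | r | b
  · simp only [potN]; positivity
  · simp only [potN]; nlinarith
  · simp only [potN]; push_cast; exact le_rfl

/-- All hitting times are at most `6 m³`. -/
lemma hit_bound (hm : 4 ≤ m) (x v : Vert m (m ^ 2)) :
    hit (GG m) x v ≤ ENNReal.ofReal (6 * (m : ℝ) ^ 3) := by
  have hm0 : 0 < m := by omega
  have hM0 : 0 < m ^ 2 := by positivity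
  have hm' : (1 : ℝ) ≤ m := by exact_mod_cast hm0
  have hm23 : (m : ℝ) ^ 2 ≤ (m : ℝ) ^ 3 := by nlinarith [one_le_pow₀ hm' (n := 2)]
  have hm2 : (1 : ℝ) ≤ (m : ℝ) ^ 2 := one_le_pow₀ hm'
  rcases v with _ | r | b
  · refine (hit_le (GG m) none (potN m (m ^ 2)) potN_nonneg (potN_step hm0 hM0) x).trans ?_
    apply ENNReal.ofReal_le_ofReal
    have := potN_le hm0 x
    linarith
  · refine (hit_le (GG m) _ (potL m (m ^ 2) r) (potL_nonneg hm0 r) (potL_step hm0 hM0 r) x).trans ?_
    apply ENNReal.ofReal_le_ofReal
    exact potL_le hm0 r x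
  · refine (hit_le (GG m) _ (potR m (m ^ 2) b) (potR_nonneg hM0 b) (potR_step hm0 hM0 b) x).trans ?_
    apply ENNReal.ofReal_le_ofReal
    have := potR_le hm b x
    linarith

/-- From a vertex of the small clique every vertex is hit before time `4 m²` with probability at
least `1/4`. -/
lemma tail_bound (hm : 4 ≤ m) (r : Fin m) (v : Vert m (m ^ 2)) (t : ℕ) (ht : 4 * m ^ 2 ≤ t) :
    hitTail (GG m) (some (Sum.inl r)) v t ≤ 3 / 4 := by
  have hm0 : 0 < m := by omega
  have hM0 : 0 < m ^ 2 := by positivity
  have hm' : (1 : ℝ) ≤ m := by exact_mod_cast hm0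
  have hm2 : (1 : ℝ) ≤ (m : ℝ) ^ 2 := one_le_pow₀ hm'
  rcases v with _ | v | b
  · refine (hitTail_le_div (GG m) none (potN m (m ^ 2)) potN_nonneg (potN_step hm0 hM0) _
      (4 * m ^ 2) (by positivity) t ht).trans ?_
    rw [div_le_iff₀ (by positivity)]
    have := potN_le hm0 (some (Sum.inl r))
    push_cast
    linarith
  · refine (hitTail_le_tailBd (by omega) v t _).trans ?_
    simp only [tailBd]
    split_ifs
    · norm_num
    · have h1 := pow_bd (m := m) (by omega) t (by nlinarith)
      linarith
  · refine (hitTail_le_div (GG m) _ (potR m (m ^ 2) b) (potR_nonneg hM0 b) (potR_step hm0 hM0 b) _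
      (4 * m ^ 2) (by positivity) t ht).trans ?_
    rw [div_le_iff₀ (by positivity)]
    have := potR_le hm b (some (Sum.inl r))
    push_cast
    linarith

lemma card_vert (m M : ℕ) : Fintype.card (Vert m M) = m + M + 1 := by
  simp [Vert, Fintype.card_option]

lemma cMax_ne_top (hm : 4 ≤ m) : cMax (GG m) ≠ ⊤ := by
  have h : cMax (GG m) ≤ ENNReal.ofReal (1 ^ 0) *
      (Fintype.card (Vert m (m ^ 2)) * ENNReal.ofReal (6 * (m : ℝ) ^ 3)) := by
    unfold cMax
    apply iSup_le
    intro x
    have := coverTime_le (GG m) 0 x 0 1 zero_le_one (fun v t _ => hitTail_le_one _ _ _ _)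
      (ENNReal.ofReal (6 * (m : ℝ) ^ 3)) (fun v => hit_bound hm x v)
    simpa using this
  refine ne_top_of_le_ne_top ?_ h
  apply ENNReal.mul_ne_top ENNReal.ofReal_ne_top
  exact ENNReal.mul_ne_top (by simp) ENNReal.ofReal_ne_top

lemma hMax_pos (hm : 4 ≤ m) : 0 < hMax (GG m) := by
  have h : (1 : ℝ≥0∞) ≤ hMax (GG m) := by
    calc (1 : ℝ≥0∞) = ENNReal.ofReal (hitTail (GG m) (some (Sum.inl ⟨0, by omega⟩)) none 0) := by
          rw [hitTail_zero _ _ _ (by simp)]
          simp
      _ ≤ hit (GG m) (some (Sum.inl ⟨0, by omega⟩)) none := ENNReal.le_tsum 0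
      _ ≤ hMax (GG m) := by
          unfold hMax
          exact le_iSup_of_le _ (le_iSup_of_le _ le_rfl)
  exact lt_of_lt_of_le one_pos h

lemma hMax_le (hm : 4 ≤ m) : hMax (GG m) ≤ ENNReal.ofReal (6 * (m : ℝ) ^ 3) :=
  iSup_le fun x => iSup_le fun v => hit_bound hm x v

/-- `H(G) ≥ (log m) / 12`. -/
lemma hRatio_lower (hm : 4 ≤ m) : Real.log m / 12 ≤ (hRatio (GG m)).toReal := by
  have hm0 : 0 < m := by omega
  have hm' : (1 : ℝ) ≤ m := by exact_mod_cast hm0
  have hm3 : (0 : ℝ) < (m : ℝ) ^ 3 := by positivity
  have hne : hRatio (GG m) ≠ ⊤ := by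
    unfold hRatio
    exact ENNReal.div_ne_top (cMax_ne_top hm) (hMax_pos hm).ne'
  rw [← ENNReal.ofReal_le_iff_le_toReal hne]
  unfold hRatio
  have hlog : Real.log m ≤ harm (m - 1) := by
    have := log_le_harm (m - 1)
    have h2 : m - 1 + 1 = m := by omega
    rwa [h2] at this
  have h1 : ENNReal.ofReal ((m : ℝ) ^ 3 / 2 * Real.log m) ≤ cMax (GG m) := by
    refine le_trans ?_ (cMax_lower hm0 (M := m ^ 2) (by positivity))
    apply ENNReal.ofReal_le_ofReal
    obtain ⟨hK1, _⟩ := KK_bounds m hm'
    push_cast
    apply mul_le_mul hK1 hlog (Real.log_nonneg hm')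
    exact KK_nonneg (by positivity) (by positivity)
  calc ENNReal.ofReal (Real.log m / 12)
      = ENNReal.ofReal ((m : ℝ) ^ 3 / 2 * Real.log m) / ENNReal.ofReal (6 * (m : ℝ) ^ 3) := by
        rw [← ENNReal.ofReal_div_of_pos (by positivity)]
        congr 1
        field_simp
        ring
    _ ≤ cMax (GG m) / hMax (GG m) := ENNReal.div_le_div h1 (hMax_le hm)

/-- Upper bound for the expected cover time of `9 j + 16` walks, `m = 2 ^ j`. -/
lemma coverTime_upper (j : ℕ) (hj : 2 ≤ j) (r : Fin (2 ^ j)) :
    coverTime (GG (2 ^ j)) (fun _ : Fin (9 * j + 15 + 1) => some (Sum.inl r))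
      ≤ ENNReal.ofReal (5 * ((2 : ℝ) ^ j) ^ 2) := by
  have hm : 4 ≤ 2 ^ j := by
    calc 4 = 2 ^ 2 := by norm_num
      _ ≤ 2 ^ j := Nat.pow_le_pow_right (by norm_num) hj
  have h := coverTime_le (GG (2 ^ j)) (9 * j + 15) (some (Sum.inl r)) (4 * (2 ^ j) ^ 2) (3 / 4)
    (by norm_num) (fun v t ht => tail_bound hm r v t ht)
    (ENNReal.ofReal (6 * ((2 ^ j : ℕ) : ℝ) ^ 3)) (fun v => hit_bound hm _ v)
  refine h.trans ?_
  rw [card_vert]
  set m : ℝ := (2 : ℝ) ^ j with hmdef
  have hm4 : (4 : ℝ) ≤ m := by
    rw [hmdef]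
    exact_mod_cast hm
  have hcast : (((2 ^ j : ℕ) : ℝ)) = m := by push_cast; rfl
  rw [hcast]
  have h1 : ((4 * (2 ^ j) ^ 2 : ℕ) : ℝ≥0∞) = ENNReal.ofReal (4 * m ^ 2) := by
    rw [← ENNReal.ofReal_natCast]
    push_cast
    rfl
  have h2 : ((2 ^ j + (2 ^ j) ^ 2 + 1 : ℕ) : ℝ≥0∞) = ENNReal.ofReal (m + m ^ 2 + 1) := by
    rw [← ENNReal.ofReal_natCast]
    push_cast
    rfl
  rw [h1, h2, ← ENNReal.ofReal_mul (by positivity), ← ENNReal.ofReal_mul (by positivity),
    ← ENNReal.ofReal_add (by positivity) (by positivity)]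
  apply ENNReal.ofReal_le_ofReal
  have h3 : ((3 : ℝ) / 4) ^ (9 * j + 15) ≤ 1 / (32 * m ^ 3) := by
    have e1 : 9 * j + 15 = 3 * (3 * j + 5) := by ring
    rw [e1, pow_mul]
    calc (((3 : ℝ) / 4) ^ 3) ^ (3 * j + 5) ≤ ((1 : ℝ) / 2) ^ (3 * j + 5) := by
          apply pow_le_pow_left₀ (by positivity)
          norm_num
      _ = 1 / (32 * m ^ 3) := by
          have h5 : (2 : ℝ) ^ (3 * j + 5) = 32 * m ^ 3 := by
            rw [hmdef, pow_add, mul_comm 3 j, pow_mul]
            norm_num
            ring
          rw [one_div_pow, h5]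
  have hm3 : 0 < m ^ 3 := by positivity
  have h4 : m + m ^ 2 + 1 ≤ 3 * m ^ 2 := by nlinarith
  calc 4 * m ^ 2 + (3 / 4) ^ (9 * j + 15) * ((m + m ^ 2 + 1) * (6 * m ^ 3))
      ≤ 4 * m ^ 2 + 1 / (32 * m ^ 3) * ((3 * m ^ 2) * (6 * m ^ 3)) := by
        gcongr
    _ = 4 * m ^ 2 + 18 / 32 * m ^ 2 := by
        field_simp
        norm_num
    _ ≤ 5 * m ^ 2 := by nlinarith

/-- **The speedup of `k ≤ e^{αH(G)}` random walks from the best starting vertices is not `O(k)`.**
For all `α > 0` and `c > 0` there are a finite connected graph `G`, an integer `k ≥ 1` with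
`k ≤ e^{α H(G)}`, `H(G) = C / h_max`, and starting vertices `u_1, …, u_k` such that
`C > c k C_{u_1,…,u_k}`. -/
theorem result : ∀ α : ℝ, 0 < α → ∀ c : ℝ, 0 < c →
    ∃ (V : Type) (_ : Fintype V) (G : SimpleGraph V) (k : ℕ) (u : Fin k → V),
      G.Connected ∧ 0 < hMax G ∧ cMax G < ⊤ ∧ 1 ≤ k ∧
      (k : ℝ) ≤ Real.exp (α * (hRatio G).toReal) ∧
      ENNReal.ofReal c * k * coverTime G u < cMax G := by
  intro α hα c hc
  set a : ℝ := α * Real.log 2 / 12 with ha
  have hlog2 : 0 < Real.log 2 := Real.log_pos (by norm_num)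
  have ha0 : 0 < a := by positivity
  obtain ⟨j, hj⟩ := exists_nat_gt (max 2 (max (50 / a ^ 2) (250 * c / Real.log 2)))
  have hj1 : (2 : ℝ) < j := lt_of_le_of_lt (le_max_left _ _) hj
  have hj2 : 50 / a ^ 2 < j :=
    lt_of_le_of_lt ((le_max_left _ _).trans (le_max_right _ _)) hj
  have hj3 : 250 * c / Real.log 2 < j :=
    lt_of_le_of_lt ((le_max_right _ _).trans (le_max_right _ _)) hj
  have hj0 : 2 ≤ j := by
    have : 2 < j := by exact_mod_cast hj1
    omega
  have hm : 4 ≤ 2 ^ j := by
    calc 4 = 2 ^ 2 := by norm_num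
      _ ≤ 2 ^ j := Nat.pow_le_pow_right (by norm_num) hj0
  have hm0 : 0 < 2 ^ j := by positivity
  refine ⟨Vert (2 ^ j) ((2 ^ j) ^ 2), inferInstance, GG (2 ^ j), 9 * j + 15 + 1,
    fun _ => some (Sum.inl ⟨0, hm0⟩), glued_connected, hMax_pos hm,
    lt_top_iff_ne_top.mpr (cMax_ne_top hm), by omega, ?_, ?_⟩
  · -- k ≤ exp (α H)
    have h1 := hRatio_lower hm
    have h2 : Real.log ((2 ^ j : ℕ) : ℝ) = j * Real.log 2 := by
      push_cast
      rw [Real.log_pow]
    rw [h2] at h1
    have h3 : a * j ≤ α * (hRatio (GG (2 ^ j))).toReal := by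
      calc a * j = α * (j * Real.log 2 / 12) := by rw [ha]; ring
        _ ≤ _ := mul_le_mul_of_nonneg_left h1 hα.le
    have h4 : (a * j) ^ 2 / 2 ≤ Real.exp (a * j) := by
      have := Real.quadratic_le_exp_of_nonneg (x := a * j) (by positivity)
      have h0 : 0 ≤ a * j := by positivity
      linarith
    calc ((9 * j + 15 + 1 : ℕ) : ℝ) ≤ 25 * j := by
          push_cast
          linarith
      _ ≤ (a * j) ^ 2 / 2 := by
          rw [div_lt_iff₀ (by positivity)] at hj2
          nlinarith
      _ ≤ Real.exp (a * j) := h4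
      _ ≤ _ := Real.exp_le_exp.mpr h3
  · -- C > c k C_u
    have h1 := coverTime_upper j hj0 ⟨0, hm0⟩
    have hm' : (1 : ℝ) ≤ (2 : ℝ) ^ j := by
      have : (4 : ℝ) ≤ (2 : ℝ) ^ j := by exact_mod_cast hm
      linarith
    have hlow : ENNReal.ofReal (((2 : ℝ) ^ j) ^ 3 / 2 * (j * Real.log 2)) ≤ cMax (GG (2 ^ j)) := by
      refine le_trans ?_ (cMax_lower hm0 (M := (2 ^ j) ^ 2) (by positivity))
      apply ENNReal.ofReal_le_ofReal
      obtain ⟨hK1, _⟩ := KK_bounds ((2 : ℝ) ^ j) hm'
      have hlog : j * Real.log 2 ≤ harm (2 ^ j - 1) := by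
        have := log_le_harm (2 ^ j - 1)
        have h2 : 2 ^ j - 1 + 1 = 2 ^ j := by omega
        rw [h2] at this
        push_cast at this
        rwa [Real.log_pow] at this
      push_cast
      apply mul_le_mul hK1 hlog (by positivity)
      exact KK_nonneg (by positivity) (by positivity)
    refine lt_of_lt_of_le ?_ hlow
    calc ENNReal.ofReal c * ((9 * j + 15 + 1 : ℕ) : ℝ≥0∞) *
          coverTime (GG (2 ^ j)) (fun _ : Fin (9 * j + 15 + 1) => some (Sum.inl ⟨0, hm0⟩))
        ≤ ENNReal.ofReal c * ((9 * j + 15 + 1 : ℕ) : ℝ≥0∞) *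
          ENNReal.ofReal (5 * ((2 : ℝ) ^ j) ^ 2) := by gcongr
      _ = ENNReal.ofReal (c * ((9 * j + 15 + 1 : ℕ) : ℝ) * (5 * ((2 : ℝ) ^ j) ^ 2)) := by
          rw [← ENNReal.ofReal_natCast (9 * j + 15 + 1), ← ENNReal.ofReal_mul hc.le,
            ← ENNReal.ofReal_mul (by positivity)]
      _ < ENNReal.ofReal (((2 : ℝ) ^ j) ^ 3 / 2 * (j * Real.log 2)) := by
          rw [ENNReal.ofReal_lt_ofReal_iff (by positivity)]
          have hk : ((9 * j + 15 + 1 : ℕ) : ℝ) ≤ 25 * j := by
            push_cast
            linarith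
          rw [div_lt_iff₀ hlog2] at hj3
          have hjm : (j : ℝ) < (2 : ℝ) ^ j := by exact_mod_cast Nat.lt_two_pow_self
          have hjpos : (0 : ℝ) < j := by linarith
          set m : ℝ := (2 : ℝ) ^ j
          have hmpos : 0 < m := by linarith
          calc c * ((9 * j + 15 + 1 : ℕ) : ℝ) * (5 * m ^ 2)
              ≤ c * (25 * j) * (5 * m ^ 2) := by gcongr
            _ = (250 * c) * (j * m ^ 2 / 2) := by ring
            _ < (j * Real.log 2) * (j * m ^ 2 / 2) := by
                apply mul_lt_mul_of_pos_right hj3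
                positivity
            _ ≤ (m * Real.log 2) * (j * m ^ 2 / 2) := by
                gcongr
            _ = m ^ 3 / 2 * (j * Real.log 2) := by ring

end Pool.Agent.Results.MP_a2c283_pr.SpeedupCounterexample
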